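import Pool.Agent.Helper50_DP.StmtsD
import Pool.Agent.Helper11_PGL.Hyper

/-!
# Squad DP, module HYP: the step given by lines in the plane
-/

set_option autoImplicit false

universe u

open MvPolynomial PGH PGL PGL.H11

namespace Pool.Agent.DP.H47

section dehom

variable {k : Type u} [Field k]

theorem aeval_affY_monomial (t : Fin 3 →₀ ℕ) (c : k) :
    aeval (affY : Fin 3 → MvPolynomial (Fin 2) k) (monomial t c) = monomial t.tail c := by
  rw [aeval_monomial, Finsupp.prod_fintype _ _ (fun i => pow_zero _), Fin.prod_univ_succ,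
    affY_zero, one_pow, one_mul, monomial_eq, Finsupp.prod_fintype _ _ (fun i => pow_zero _)]
  rfl

theorem dehom_inj {d : ℕ} {q : MvPolynomial (Fin 3) k} (hq : q.IsHomogeneous d)
    (h : aeval (affY : Fin 3 → MvPolynomial (Fin 2) k) q = 0) : q = 0 := by
  classical
  have hdeg : ∀ t, coeff t q ≠ 0 → ∑ i, t i = d := by
    intro t ht
    have h1 : t.degree = d := by
      rw [Finsupp.degree_eq_weight_one]
      exact hq ht
    rwa [Finsupp.degree_eq_sum] at h1
  ext t
  rw [coeff_zero]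
  by_contra ht
  apply ht
  have h1 : aeval (affY : Fin 3 → MvPolynomial (Fin 2) k) q =
      ∑ s ∈ q.support, monomial s.tail (coeff s q) := by
    conv_lhs => rw [q.as_sum]
    rw [map_sum]
    exact Finset.sum_congr rfl fun s _ => aeval_affY_monomial s _
  have h2 := congrArg (coeff t.tail) (h1.symm.trans h)
  rw [coeff_sum, coeff_zero, Finset.sum_eq_single t] at h2
  · rw [coeff_monomial, if_pos rfl] at h2
    exact h2
  · intro s hs hst
    rw [coeff_monomial, if_neg]
    intro h3
    apply hst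
    have h4 := hdeg s (mem_support_iff.1 hs)
    have h5 := hdeg t ht
    rw [Fin.sum_univ_succ] at h4 h5
    have h6 : ∀ i : Fin 2, s i.succ = t i.succ := fun i => by
      have := DFunLike.congr_fun h3 i
      rwa [Finsupp.tail_apply, Finsupp.tail_apply] at this
    rw [Finset.sum_congr rfl (fun i _ => h6 i)] at h4
    ext i
    refine Fin.cases ?_ (fun l => h6 l) i
    omega
  · intro h3
    exact absurd (mem_support_iff.2 ht) h3

end dehom

theorem core {k M : Type u} [Field k] [Field M] [Algebra k M] (N₀ : ℕ)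
    (Φ : ∀ N : ℕ, MvPolynomial (Fin N × Fin 3) ℤ)
    (F F' : Subfield M) {N r : ℕ} (x : Fin 2 → M) (L : Fin N → Fin 3 → k) (t : M)
    (A : Fin N → Fin r → ℤ) (m : Fin r → ℕ) (b z : Fin r → M) (hFF' : F ≤ F') (hN : N₀ ≤ N)
    (hL0 : ∀ i, L i ≠ 0) (hΦ : aeval (fun p : Fin N × Fin 3 => L p.1 p.2) (Φ N) ≠ 0) (ht : t ≠ 0)
    (hrel : ∀ j, b j ∈ F ∧ b j ≠ 0 ∧ z j ≠ 0 ∧
      ∏ i, ((algebraMap k M (L i 0) + algebraMap k M (L i 1) * x 0 +
        algebraMap k M (L i 2) * x 1) / t) ^ A i j = b j * z j ^ m j)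
    (hmult : ∀ i (s : ℤ), ∃ j, ¬ (m j : ℤ) ∣ A i j + s * ∑ i, A i j)
    (halg : ∀ a ∈ F', IsAlgebraic (Subfield.closure ((F : Set M) ∪ Set.range x)) a)
    (V : Subfield M) [Algebra (MvPolynomial (Fin 2) k) V]
    [IsFractionRing (MvPolynomial (Fin 2) k) V] (hkV : ∀ c : k, algebraMap k M c ∈ V)
    (hcoe : ∀ a, ((algebraMap (MvPolynomial (Fin 2) k) V a : V) : M) = MvPolynomial.aeval x a) :
    NetStep N₀ Φ (algebraMap k M).fieldRange F F' := by
  classical
  set ψ : MvPolynomial (Fin 2) k →+* V := algebraMap (MvPolynomial (Fin 2) k) V with hψdef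
  have hψ : Function.Injective ψ := IsFractionRing.injective _ _
  have hsum : ∀ i, lf (fun l => ψ (MvPolynomial.C (L i l))) (fun j => ψ (affY j)) =
      ψ (linPoly (L i)) := by
    intro i
    rw [linPoly_eq, map_sum]
    exact Finset.sum_congr rfl (fun l _ => (map_mul _ _ _).symm)
  have hK : ∀ c : k, ((ψ (MvPolynomial.C c) : V) : M) = algebraMap k M c := fun c => by
    rw [hcoe, MvPolynomial.aeval_C]
  have hKV : ∀ c : V, (c : M) ∈ (algebraMap k M).fieldRange → ∃ c' : k, ψ (C c') = c := by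
    rintro c ⟨c', hc'⟩
    exact ⟨c', Subtype.ext (by rw [hK, hc'])⟩
  refine ⟨hFF', V, HW k 2 V, N, r, fun j => ψ (affY j), fun i l => ψ (MvPolynomial.C (L i l)), t,
    A, m, b, z, hN, ?_, ?_, ?_, ?_, ?_, ?_, ?_, ?_, hmult, ?_⟩
  · rintro _ ⟨c, rfl⟩
    exact hkV c
  · intro w hw c hc hc0
    obtain ⟨c', rfl⟩ := hKV c hc
    refine hw_const hw ?_
    rintro rfl
    exact hc0 (by rw [map_zero, map_zero])
  · intro a ha
    obtain ⟨c, hc⟩ := hw_regular (k := k) (n := 2) a ha
    refine ⟨c, ?_⟩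
    rw [← hK, hψdef, hc]
  · intro i l
    exact ⟨L i l, (hK _).symm⟩
  · intro h0
    apply hΦ
    have h1 := MvPolynomial.map_aeval (R := ℤ) (fun p : Fin N × Fin 3 => L p.1 p.2) (ψ.comp C) (Φ N)
    have h2 : (ψ.comp C) (aeval (fun p : Fin N × Fin 3 => L p.1 p.2) (Φ N)) = 0 := by
      rw [h1, ← h0, MvPolynomial.aeval_def, MvPolynomial.coe_eval₂Hom]
      congr 1
      exact RingHom.ext_int _ _
    have hinj : Function.Injective (ψ.comp (C : k →+* MvPolynomial (Fin 2) k)) :=
      hψ.comp (MvPolynomial.C_injective _ _)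
    exact hinj (by rw [h2, map_zero])
  · intro d p hp hpK hp0
    choose! g hg using hKV
    set q : MvPolynomial (Fin 3) k := ∑ s ∈ p.support, monomial s (g (coeff s p)) with hq
    have hpq : MvPolynomial.map (ψ.comp C) q = p := by
      rw [hq, map_sum]
      conv_rhs => rw [p.as_sum]
      refine Finset.sum_congr rfl fun s _ => ?_
      rw [MvPolynomial.map_monomial, RingHom.comp_apply, hg _ (hpK s)]
    have hqd : q.IsHomogeneous d := by
      refine IsHomogeneous.sum _ _ _ fun s hs => ?_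
      refine isHomogeneous_monomial _ ?_
      rw [Finsupp.degree_eq_weight_one]
      exact hp (mem_support_iff.1 hs)
    have hq0 : aeval (affY : Fin 3 → MvPolynomial (Fin 2) k) q = 0 := by
      apply hψ
      rw [map_zero, ← hp0, ← hpq, MvPolynomial.map_aeval, MvPolynomial.aeval_def,
        MvPolynomial.eval₂_map, MvPolynomial.coe_eval₂Hom]
      rfl
    rw [← hpq, dehom_inj hqd hq0, map_zero]
  · intro w hw i j
    rw [hsum]
    exact hw_linear hw (linPoly_ne_zero (hL0 i)) (linPoly_degree _) (affY_degree j)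
  · intro j
    obtain ⟨h1, h2, h3, h4⟩ := hrel j
    refine ⟨h1, ?_, ht, h2, h3⟩
    rw [← h4]
    refine Finset.prod_congr rfl fun i _ => ?_
    rw [hsum, hcoe]
    congr 2
    simp only [linPoly, map_add, map_mul, MvPolynomial.aeval_C, MvPolynomial.aeval_X,
      Fin.sum_univ_two, ← add_assoc]
    rfl
  · intro a ha
    refine isAlgebraic_mono (Subfield.closure_mono ?_) (halg a ha)
    rintro y (hy | ⟨l, rfl⟩)
    · exact Or.inl hy
    · right
      refine ⟨l.succ, 0, ?_⟩
      rw [hcoe, hcoe, affY_succ, affY_zero, MvPolynomial.aeval_X, map_one, div_one]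

/-- HYP: the step given by lines in the plane -/
theorem hyp : HypStmt.{u} := by
  intro N₀ Φ k M _ _ _ _ _ F F' N r x L t A m b z hFF' hN hx hL0 hΦ ht hrel hmult halg
  obtain ⟨V, _, _, hkV, hcoe⟩ := exists_V x hx
  exact core N₀ Φ F F' x L t A m b z hFF' hN hL0 hΦ ht hrel hmult halg V hkV hcoe

end Pool.Agent.DP.H47
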