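import Pool.Agent.Helper50_DP.Stmts

/-!
# Squad DP, module LIN: the height inequality for a curve in a line with at most one node
-/

set_option autoImplicit false

universe u

open MvPolynomial PGH PGL

namespace Pool.Agent.DP.H47

section red

variable {k E : Type u} [Field k] [Field E] [Algebra k E]

/-- reduction of the vector `y` at the place `v` -/
theorem exists_red {n : ℕ} (v : Place k E) (y : Fin n → E) (α : ℤ) (h : ∀ j, v.Ge α (y j))
    (hex : ∃ j, ¬ v.Ge (α + 1) (y j)) :
    ∃ r : Fin n → k, r ≠ 0 ∧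
      ∀ b : Fin n → k, v.Ge (α + 1) (lin b y) → ∑ c, b c * r c = 0 := by
  obtain ⟨π, hπ0, hπ⟩ := v.exists_unif
  have h1 : ∀ c, v.Ge 0 (y c * π ^ (-α)) := fun c => (v.ge_iff_of_unif hπ0 hπ).1 (h c)
  choose r hr using fun c => v.exists_res (h1 c)
  refine ⟨r, ?_, ?_⟩
  · rintro rfl
    obtain ⟨j, hj⟩ := hex
    apply hj
    have h2 := hr j
    rw [Pi.zero_apply, map_zero, sub_zero] at h2
    have h3 : y j = (y j * π ^ (-α)) * π ^ α := by
      rw [mul_assoc, ← zpow_add₀ hπ0]; simp
    rw [h3]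
    exact h2.mul' (v.ge_zpow hπ0 hπ α) (by omega)
  · intro b hb
    by_contra h0
    apply v.not_ge_one_const h0
    have h2 : v.Ge 1 (lin b y * π ^ (-α)) := hb.mul' (v.ge_zpow hπ0 hπ (-α)) (by omega)
    have h3 : v.Ge 1 (∑ c, algebraMap k E (b c) * (y c * π ^ (-α) - algebraMap k E (r c))) :=
      Place.Ge.sum fun c _ => (v.ge_const (b c)).mul' (hr c) (by omega)
    have h4 : algebraMap k E (∑ c, b c * r c) = lin b y * π ^ (-α) -
        ∑ c, algebraMap k E (b c) * (y c * π ^ (-α) - algebraMap k E (r c)) := by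
      unfold lin
      rw [map_sum, Finset.sum_mul, ← Finset.sum_sub_distrib]
      refine Finset.sum_congr rfl fun c _ => ?_
      rw [map_mul]
      ring
    rw [h4]
    exact h2.sub h3

theorem det_of_red {a b c r : Fin 3 → k} (hr : r ≠ 0) (ha : ∑ i, a i * r i = 0)
    (hb : ∑ i, b i * r i = 0) (hc : ∑ i, c i * r i = 0) : det3 a b c = 0 := by
  unfold det3
  rw [← Matrix.exists_mulVec_eq_zero_iff]
  refine ⟨r, hr, ?_⟩
  funext i
  fin_cases i
  · exact ha
  · exact hb
  · exact hc

theorem det3_swap {a b c : Fin 3 → k} (h : det3 a b c = 0) : det3 a c b = 0 := by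
  unfold det3 at h ⊢
  rw [Matrix.det_fin_three] at h ⊢
  simp only [Matrix.of_apply, Matrix.cons_val] at h ⊢
  linear_combination (-1 : k) * h

end red

/-- LIN: the height inequality for a curve in a line which contains at most one node -/
theorem lin_ : LinStmt.{u} := by
  classical
  intro k E _ _ _ _ _ _ N C L y M cp α s₀ sc sb hG hN hmin hL hM hMy hpair hsb hS
  have hge : ∀ (i : Fin N) (v : Place k E), v.Ge (α v) (lin (L i) y) := fun i v =>
    Place.Ge.sum fun c _ => (v.ge_const _).mul' (hmin.ge v c) (by omega)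
  have he0 : ∀ (i : Fin N) (v : Place k E), 0 ≤ v.ord (lin (L i) y) - α v := by
    intro i v
    have := (v.ge_iff (hL i)).1 (hge i v)
    omega
  have hkey : ∀ (v : Place k E) (i j : Fin N), α v < v.ord (lin (L i) y) →
      α v < v.ord (lin (L j) y) → det3 M (L i) (L j) = 0 := by
    intro v i j hi hj
    obtain ⟨r, hr0, hr⟩ := exists_red v y (α v) (hmin.ge v) (hmin.exact v)
    refine det_of_red hr0 (hr M ?_) (hr _ ((v.ge_iff (hL i)).2 (by omega)))
      (hr _ ((v.ge_iff (hL j)).2 (by omega)))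
    rw [hMy]
    exact v.ge_zero _
  obtain ⟨I, hI, hIcard⟩ : ∃ I : Finset (Fin N),
      (∀ i ∈ I, ∀ j, j ≠ i → det3 M (L i) (L j) ≠ 0) ∧ (N : ℤ) - 2 ≤ I.card := by
    by_cases hex : ∃ i j : Fin N, i < j ∧ det3 M (L i) (L j) = 0
    · obtain ⟨i0, j0, hlt, h0⟩ := hex
      refine ⟨Finset.univ \ {i0, j0}, ?_, ?_⟩
      · intro i hi j hne h1
        rw [Finset.mem_sdiff, Finset.mem_insert, Finset.mem_singleton, not_or] at hi
        rcases lt_or_gt_of_ne hne with hlt' | hlt'
        · exact hi.2.2 (hpair j i i0 j0 hlt' hlt (det3_swap h1) h0).2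
        · exact hi.2.1 (hpair i j i0 j0 hlt' hlt h1 h0).1
      · have h1 := Finset.le_card_sdiff ({i0, j0} : Finset (Fin N)) Finset.univ
        rw [Finset.card_univ, Fintype.card_fin] at h1
        have h2 : ({i0, j0} : Finset (Fin N)).card ≤ 2 := Finset.card_le_two
        omega
    · refine ⟨Finset.univ, ?_, ?_⟩
      · intro i _ j hne h1
        apply hex
        rcases lt_or_gt_of_ne hne with hlt' | hlt'
        · exact ⟨j, i, hlt', det3_swap h1⟩
        · exact ⟨i, j, hlt', h1⟩
      · rw [Finset.card_univ, Fintype.card_fin]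
        omega
  -- the big finite set
  have hfin : (⋃ i : Fin N, {v : Place k E | v.ord (lin (L i) y) ≠ 0}).Finite :=
    Set.finite_iUnion (fun i => finite_support (lin (L i) y))
  set s := (s₀ ∪ sc) ∪ hfin.toFinset with hs
  have hs0 : s₀ ⊆ s := Finset.subset_union_left.trans Finset.subset_union_left
  have hs1 : sc ⊆ s := Finset.subset_union_right.trans Finset.subset_union_left
  have hsupp : ∀ (i : Fin N), ∀ v ∉ s, v.ord (lin (L i) y) = 0 := by
    intro i v hv
    by_contra h0
    apply hv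
    rw [hs, Finset.mem_union]
    right
    rw [Set.Finite.mem_toFinset]
    exact Set.mem_iUnion.2 ⟨i, h0⟩
  have hα : ∑ v ∈ s, α v = ∑ v ∈ s₀, α v := by
    symm
    exact Finset.sum_subset hs0 fun v _ hv => hmin.supp v hv
  have hh : ∀ i : Fin N, ∑ v ∈ s, (v.ord (lin (L i) y) - α v) = -∑ v ∈ s, α v := by
    intro i
    rw [Finset.sum_sub_distrib, sum_ord_eq_zero _ s (hsupp i), zero_sub]
  have hh0 : 0 ≤ -∑ v ∈ s, α v := by
    rw [← hh ⟨0, by omega⟩]
    exact Finset.sum_nonneg fun v _ => he0 _ v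
  have hpt : ∀ v ∈ s, ∑ i ∈ I, (v.ord (lin (L i) y) - α v) ≤
      (if v ∈ sb then (1 : ℤ) else 0) + 2 * ∑ i, max 0 (v.ord (lin (L i) y) - α v - 1) := by
    intro v _
    have hnn : 0 ≤ ∑ i, max 0 (v.ord (lin (L i) y) - α v - 1) :=
      Finset.sum_nonneg fun i _ => le_max_left _ _
    by_cases hex : ∃ i ∈ I, α v < v.ord (lin (L i) y)
    · obtain ⟨i0, hi0, hpos⟩ := hex
      have hother : ∀ j, j ≠ i0 → v.ord (lin (L j) y) - α v = 0 := by
        intro j hj
        by_contra h0
        have h1 := he0 j v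
        exact hI i0 hi0 j hj (hkey v i0 j hpos (by omega))
      rw [Finset.sum_eq_single_of_mem i0 hi0 (fun j _ hj => hother j hj)]
      by_cases h1 : v.ord (lin (L i0) y) = α v + 1
      · have hvb : v ∈ sb := by
          by_contra hvb
          obtain ⟨j, hj, hj'⟩ := hsb v hvb i0 h1
          have := hother j hj
          omega
        rw [if_pos hvb]
        omega
      · have h2 : max 0 (v.ord (lin (L i0) y) - α v - 1) ≤
            ∑ i, max 0 (v.ord (lin (L i) y) - α v - 1) :=
          Finset.single_le_sum (f := fun i => max 0 (v.ord (lin (L i) y) - α v - 1))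
            (fun i _ => le_max_left _ _) (Finset.mem_univ i0)
        split_ifs <;> omega
    · have h0 : ∑ i ∈ I, (v.ord (lin (L i) y) - α v) = 0 := by
        refine Finset.sum_eq_zero fun i hi => ?_
        have h1 := he0 i v
        by_contra h2
        exact hex ⟨i, hi, by omega⟩
      rw [h0]
      split_ifs <;> omega
  have hsum := Finset.sum_le_sum hpt
  rw [Finset.sum_comm, Finset.sum_congr rfl (fun i _ => hh i), Finset.sum_const, nsmul_eq_mul,
    Finset.sum_add_distrib, ← Finset.mul_sum] at hsum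
  have hB : ∑ v ∈ s, (if v ∈ sb then (1 : ℤ) else 0) ≤ sb.card := by
    rw [Finset.sum_ite_mem, Finset.sum_const, nsmul_eq_mul, mul_one]
    exact_mod_cast Finset.card_le_card Finset.inter_subset_right
  have hS' := hS s hs0 hs1
  rw [hα] at hsum hS' hh0
  have h1 : ((N : ℤ) - 2) * (-∑ v ∈ s₀, α v) ≤ I.card * (-∑ v ∈ s₀, α v) :=
    mul_le_mul_of_nonneg_right hIcard hh0
  have hb0 : (0 : ℤ) ≤ sb.card := by positivity
  linarith

end Pool.Agent.DP.H47
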